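import Pool.Agent.Helper51.PF.Goals

namespace Pool.Agent.Helper51.PF

open Finset

open Classical in
/-- The bad primes up to `x`. -/
noncomputable def badP (x : ℝ) : Finset ℕ :=
  (Finset.range (⌊x⌋₊ + 1)).filter (fun p : ℕ => p.Prime ∧
      ∃ s : ℕ, (s : ℝ) * (Real.log p) ^ 2 ≤ Real.sqrt p ∧ ¬ EarlyFree p s)

lemma one_le_log_of {y : ℝ} (hy : 100 ≤ y) : 1 ≤ Real.log y := by
  rw [Real.le_log_iff_exp_le (by linarith)]
  have := Real.exp_one_lt_d9
  linarith

lemma bad_dyadic (hEXD : G_EXD) (y : ℝ) (hy : 100 ≤ y) :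
    (((badP (2 * y)).filter (fun p : ℕ => y < p)).card : ℝ) ≤ 4 * y / (Real.log y) ^ 4 := by
  classical
  have hl1 : 1 ≤ Real.log y := one_le_log_of hy
  have hl0 : 0 < Real.log y := by linarith
  set M : ℕ := ⌊Real.sqrt (2 * y) / (Real.log y) ^ 2⌋₊ with hM
  have hMle : (M : ℝ) ≤ Real.sqrt (2 * y) / (Real.log y) ^ 2 := Nat.floor_le (by positivity)
  have hMle2 : (M : ℝ) ≤ Real.sqrt (2 * y) := by
    refine le_trans hMle ?_
    apply div_le_self (Real.sqrt_nonneg _)
    nlinarith
  have h1 := hEXD y M hy hMle2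
  have h2 : (((badP (2 * y)).filter (fun p : ℕ => y < p)).card : ℝ) ≤ 2 * (M : ℝ) ^ 2 := by
    refine le_trans ?_ h1
    apply Nat.cast_le.mpr
    apply Finset.card_le_card
    intro p hp
    unfold badP at hp
    simp only [Finset.mem_filter] at hp ⊢
    obtain ⟨⟨hpr, hpp, s, hs, hE⟩, hyp⟩ := hp
    refine ⟨hpr, hpp, hyp, ?_⟩
    unfold EarlyFree at hE
    push Not at hE
    obtain ⟨m, hm1, hms, hmE⟩ := hE
    refine ⟨m, hm1, ?_, ?_⟩
    · -- m ≤ M
      have hp2y : (p : ℝ) ≤ 2 * y := by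
        have : p ≤ ⌊2 * y⌋₊ := Nat.lt_succ_iff.mp (Finset.mem_range.mp hpr)
        exact le_trans (Nat.cast_le.mpr this) (Nat.floor_le (by linarith))
      have hlp : Real.log y ≤ Real.log p := Real.log_le_log (by linarith) hyp.le
      have hs2 : (s : ℝ) * (Real.log y) ^ 2 ≤ Real.sqrt (2 * y) := by
        calc (s : ℝ) * (Real.log y) ^ 2 ≤ (s : ℝ) * (Real.log p) ^ 2 := by
              apply mul_le_mul_of_nonneg_left _ (Nat.cast_nonneg s)
              exact pow_le_pow_left₀ hl0.le hlp 2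
          _ ≤ Real.sqrt p := hs
          _ ≤ Real.sqrt (2 * y) := Real.sqrt_le_sqrt hp2y
      have hs3 : (s : ℝ) ≤ Real.sqrt (2 * y) / (Real.log y) ^ 2 := by
        rw [le_div_iff₀ (by positivity)]; exact hs2
      have hs4 : s ≤ M := Nat.le_floor hs3
      omega
    · by_cases h : (m.factorial : ZMod p) = -1
      · exact Or.inl h
      · right
        exact hmE h
  have h3 : (M : ℝ) ^ 2 ≤ 2 * y / (Real.log y) ^ 4 := by
    calc (M : ℝ) ^ 2 ≤ (Real.sqrt (2 * y) / (Real.log y) ^ 2) ^ 2 := pow_le_pow_left₀ (Nat.cast_nonneg _) hMle 2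
      _ = 2 * y / (Real.log y) ^ 4 := by
        rw [div_pow, Real.sq_sqrt (by linarith), ← pow_mul]
  calc (((badP (2 * y)).filter (fun p : ℕ => y < p)).card : ℝ) ≤ 2 * (M : ℝ) ^ 2 := h2
    _ ≤ 2 * (2 * y / (Real.log y) ^ 4) := by linarith
    _ = 4 * y / (Real.log y) ^ 4 := by ring

lemma bad_split (x : ℝ) (hx : 0 ≤ x) :
    ((badP x).card : ℝ) ≤ (badP (x / 2)).card + (((badP (2 * (x / 2))).filter (fun p : ℕ => x / 2 < p)).card : ℝ) := by
  classical
  have h2 : 2 * (x / 2) = x := by ring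
  rw [h2]
  rw [← Nat.cast_add]
  apply Nat.cast_le.mpr
  rw [← Finset.card_filter_add_card_filter_not (s := badP x) (fun p : ℕ => x / 2 < p), add_comm]
  apply Nat.add_le_add_right
  apply Finset.card_le_card
  intro p hp
  unfold badP at hp ⊢
  simp only [Finset.mem_filter, Finset.mem_range] at hp ⊢
  obtain ⟨⟨hpr, hpp⟩, hyp⟩ := hp
  refine ⟨?_, hpp⟩
  apply Nat.lt_succ_of_le
  apply Nat.le_floor
  exact not_lt.mp hyp

lemma bad_small (x : ℝ) (hx : 2 ≤ x) (hx2 : x ≤ 4096) :
    ((badP x).card : ℝ) ≤ 10000 * x / (Real.log x) ^ 4 := by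
  classical
  have h1 : (badP x).card ≤ ⌊x⌋₊ + 1 := by
    unfold badP
    refine le_trans (Finset.card_filter_le _ _) ?_
    simp
  have h2 : ((badP x).card : ℝ) ≤ x + 1 := by
    calc ((badP x).card : ℝ) ≤ ((⌊x⌋₊ + 1 : ℕ) : ℝ) := Nat.cast_le.mpr h1
      _ = (⌊x⌋₊ : ℝ) + 1 := by push_cast; rfl
      _ ≤ x + 1 := by
        have := Nat.floor_le (show 0 ≤ x by linarith)
        linarith
  have hl : Real.log x ≤ 12 * Real.log 2 := by
    have : Real.log x ≤ Real.log 4096 := Real.log_le_log (by linarith) hx2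
    have h3 : Real.log 4096 = 12 * Real.log 2 := by
      rw [show (4096 : ℝ) = 2 ^ 12 by norm_num, Real.log_pow]; norm_num
    linarith
  have hl2 : Real.log x ≤ 8.3179 := by
    have := Real.log_two_lt_d9
    linarith
  have hl0 : 0 < Real.log x := Real.log_pos (by linarith)
  have hl4 : (Real.log x) ^ 4 ≤ 4800 := by
    calc (Real.log x) ^ 4 ≤ 8.3179 ^ 4 := pow_le_pow_left₀ hl0.le hl2 4
      _ ≤ 4800 := by norm_num
  rw [le_div_iff₀ (by positivity)]
  calc ((badP x).card : ℝ) * (Real.log x) ^ 4 ≤ (x + 1) * 4800 := by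
        apply mul_le_mul h2 hl4 (by positivity) (by linarith)
    _ ≤ 10000 * x := by linarith

lemma bad_all (hEXD : G_EXD) (n : ℕ) : ∀ x : ℝ, 2 ≤ x → x ≤ 2 ^ n * 4096 →
    ((badP x).card : ℝ) ≤ 10000 * x / (Real.log x) ^ 4 := by
  induction n with
  | zero =>
    intro x hx hx2
    exact bad_small x hx (by linarith)
  | succ n ih =>
    intro x hx hx2
    by_cases h : x ≤ 4096
    · exact bad_small x hx h
    · have hx3 : 4096 < x := not_le.mp h
      have h1 := ih (x / 2) (by linarith) (by rw [pow_succ] at hx2; linarith)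
      have h2 := bad_dyadic hEXD (x / 2) (by linarith)
      have h3 := bad_split x (by linarith)
      set l := Real.log x with hl
      have hlog2 : Real.log (x / 2) = l - Real.log 2 := by
        rw [Real.log_div (by linarith) (by norm_num)]
      have hl12 : 12 * Real.log 2 ≤ l := by
        have h4 : Real.log 4096 ≤ l := Real.log_le_log (by norm_num) hx3.le
        have h5 : Real.log 4096 = 12 * Real.log 2 := by
          rw [show (4096 : ℝ) = 2 ^ 12 by norm_num, Real.log_pow]; norm_num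
        linarith
      have hlog2pos : 0 < Real.log 2 := Real.log_pos (by norm_num)
      have hlpos : 0 < l := by linarith
      have hge : 11 / 12 * l ≤ Real.log (x / 2) := by rw [hlog2]; linarith
      have hge4 : 14641 / 20736 * l ^ 4 ≤ (Real.log (x / 2)) ^ 4 := by
        have := pow_le_pow_left₀ (by positivity) hge 4
        calc 14641 / 20736 * l ^ 4 = (11 / 12 * l) ^ 4 := by ring
          _ ≤ _ := this
      have hpos4 : 0 < (Real.log (x / 2)) ^ 4 := by
        have : 0 < 14641 / 20736 * l ^ 4 := by positivity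
        linarith
      have h6 : ((badP x).card : ℝ) ≤ 5002 * x / (Real.log (x / 2)) ^ 4 := by
        calc ((badP x).card : ℝ) ≤ 10000 * (x / 2) / (Real.log (x / 2)) ^ 4 + 4 * (x / 2) / (Real.log (x / 2)) ^ 4 := by linarith
          _ = 5002 * x / (Real.log (x / 2)) ^ 4 := by ring
      refine le_trans h6 ?_
      rw [div_le_div_iff₀ hpos4 (by positivity)]
      have h7 : 5002 * x * l ^ 4 ≤ 10000 * x * (14641 / 20736 * l ^ 4) := by
        have : 0 ≤ x * l ^ 4 := by positivity
        nlinarith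
      refine le_trans h7 ?_
      apply mul_le_mul_of_nonneg_left hge4 (by linarith)

theorem g_exc (hEXD : G_EXD) : G_EXC := by
  refine ⟨10000, fun x hx => ?_⟩
  obtain ⟨n, hn⟩ := pow_unbounded_of_one_lt x (show (1 : ℝ) < 2 by norm_num)
  have h := bad_all hEXD n x hx (by linarith)
  unfold badP at h
  exact h

end Pool.Agent.Helper51.PF
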