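import Pool.Agent.Helper51.PF.Goals

namespace Pool.Agent.Helper51.PF

open Finset

lemma mem_cls {n : ℕ} {τ0 τ : Equiv.Perm (Fin n)} {D : Finset (Fin n)} :
    τ ∈ cls τ0 D ↔ ∀ x ∈ D, τ x = τ0 x := by
  unfold cls; simp

lemma cls_eq {n : ℕ} {τ0 τ : Equiv.Perm (Fin n)} {D : Finset (Fin n)} (h : τ ∈ cls τ0 D) :
    cls τ D = cls τ0 D := by
  ext σ
  rw [mem_cls, mem_cls]
  rw [mem_cls] at h
  constructor
  · intro hs x hx; rw [hs x hx, h x hx]
  · intro hs x hx; rw [hs x hx, h x hx]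

lemma cls_symm {n : ℕ} {τ0 τ : Equiv.Perm (Fin n)} {D : Finset (Fin n)} :
    τ ∈ cls τ0 D ↔ τ0 ∈ cls τ D := by
  rw [mem_cls, mem_cls]
  constructor
  · intro h x hx; exact (h x hx).symm
  · intro h x hx; exact (h x hx).symm

lemma self_mem_cls {n : ℕ} (τ : Equiv.Perm (Fin n)) (D : Finset (Fin n)) : τ ∈ cls τ D := by
  rw [mem_cls]; intro x _; rfl

lemma avg_cls {n : ℕ} (D : Finset (Fin n)) (F : Equiv.Perm (Fin n) → ℝ) :
    ∑ τ, (1 / ((cls τ D).card : ℝ)) * ∑ τ' ∈ cls τ D, F τ' = ∑ τ, F τ := by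
  classical
  have h1 : ∀ τ : Equiv.Perm (Fin n), (1 / ((cls τ D).card : ℝ)) * ∑ τ' ∈ cls τ D, F τ' =
      ∑ τ', if τ' ∈ cls τ D then (1 / ((cls τ D).card : ℝ)) * F τ' else 0 := by
    intro τ
    rw [Finset.mul_sum, ← Finset.sum_filter]
    congr 1
    ext x; simp
  simp_rw [h1]
  rw [Finset.sum_comm]
  apply Finset.sum_congr rfl
  intro τ' _
  have h2 : ∀ τ : Equiv.Perm (Fin n), (if τ' ∈ cls τ D then (1 / ((cls τ D).card : ℝ)) * F τ' else 0) =
      if τ ∈ cls τ' D then (1 / ((cls τ' D).card : ℝ)) * F τ' else 0 := by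
    intro τ
    by_cases h : τ' ∈ cls τ D
    · have h' : τ ∈ cls τ' D := cls_symm.mp h
      rw [if_pos h, if_pos h', cls_eq h']
    · have h' : ¬ τ ∈ cls τ' D := fun hh => h (cls_symm.mp hh)
      rw [if_neg h, if_neg h']
  simp_rw [h2]
  rw [← Finset.sum_filter, Finset.sum_const]
  have h3 : (univ.filter (fun τ => τ ∈ cls τ' D)) = cls τ' D := by ext x; simp
  rw [h3, nsmul_eq_mul]
  have h4 : ((cls τ' D).card : ℝ) ≠ 0 := by
    have : 0 < (cls τ' D).card := Finset.card_pos.mpr ⟨τ', self_mem_cls τ' D⟩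
    exact_mod_cast this.ne'
  field_simp

lemma bprod_cls {G : Type} [CommGroup G] {n : ℕ} (v : Fin n → G) {τ0 τ : Equiv.Perm (Fin n)}
    {D : Finset (Fin n)} (h : τ ∈ cls τ0 D) : bprod v τ D = bprod v τ0 D := by
  rw [mem_cls] at h
  unfold bprod
  apply Finset.prod_congr rfl
  intro x hx
  rw [h x hx]

theorem g_nr (hLF : G_LF) (hEX : G_EX) : G_NR := by
  classical
  intro G _ _ n L q v D Dj S t hinj hSC hn hL hD hDne hdis hdis2 hLj hLr
  set c : ℝ := 1 / (Fintype.card G : ℝ) ^ q + (4 / 5 : ℝ) ^ L with hc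
  have hc0 : 0 ≤ c := by positivity
  set P : Equiv.Perm (Fin n) → Prop := fun τ => bprod v τ D ∈ S ∧
    ∀ j, bprod v τ (Dj j) = t (bprod v τ D) j with hP
  set F : Equiv.Perm (Fin n) → ℝ := fun τ => if P τ then 1 else 0 with hF
  have hex := hEX G n v D S hinj hDne
  have hcardpos : (0 : ℝ) < Fintype.card (Equiv.Perm (Fin n)) := by
    exact_mod_cast Fintype.card_pos
  -- numerator bound
  have hnum : ((univ.filter P).card : ℝ) ≤ c * ((univ.filter (fun τ : Equiv.Perm (Fin n) => bprod v τ D ∈ S)).card : ℝ) := by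
    have e1 : ((univ.filter P).card : ℝ) = ∑ τ, F τ := by
      rw [hF, Finset.sum_boole]
    have e2 : ((univ.filter (fun τ : Equiv.Perm (Fin n) => bprod v τ D ∈ S)).card : ℝ) =
        ∑ τ : Equiv.Perm (Fin n), if bprod v τ D ∈ S then (1 : ℝ) else 0 := by
      rw [Finset.sum_boole]
    rw [e1, e2, ← avg_cls D F, Finset.mul_sum]
    apply Finset.sum_le_sum
    intro τ _
    have hpos : (0 : ℝ) < (cls τ D).card := by
      exact_mod_cast Finset.card_pos.mpr ⟨τ, self_mem_cls τ D⟩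
    by_cases hW : bprod v τ D ∈ S
    · rw [if_pos hW, mul_one]
      have hsum : ∑ τ' ∈ cls τ D, F τ' ≤ c * (cls τ D).card := by
        have e3 : ∑ τ' ∈ cls τ D, F τ' = (((cls τ D).filter (fun τ' => ∀ j, bprod v τ' (Dj j) =
            t (bprod v τ D) j)).card : ℝ) := by
          rw [hF, Finset.sum_boole]
          congr 2
          apply Finset.filter_congr
          intro τ' hτ'
          rw [hP]
          simp only
          rw [bprod_cls v hτ']
          simp [hW]
        rw [e3]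
        have := hLF G n L q v D τ Dj (t (bprod v τ D)) hSC hn hL hD hdis hdis2 hLj hLr
        have h5 := (abs_le.mp this).2
        have h6 : c * ((cls τ D).card : ℝ) = ((cls τ D).card : ℝ) / (Fintype.card G : ℝ) ^ q +
            (4 / 5 : ℝ) ^ L * (cls τ D).card := by rw [hc]; ring
        rw [h6]
        linarith
      calc (1 / ((cls τ D).card : ℝ)) * ∑ τ' ∈ cls τ D, F τ' ≤
            (1 / ((cls τ D).card : ℝ)) * (c * (cls τ D).card) := by
            apply mul_le_mul_of_nonneg_left hsum (by positivity)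
        _ = c := by field_simp
    · rw [if_neg hW, mul_zero]
      have : ∑ τ' ∈ cls τ D, F τ' = 0 := by
        apply Finset.sum_eq_zero
        intro τ' hτ'
        rw [hF]
        simp only
        rw [if_neg]
        rintro ⟨h1, _⟩
        rw [bprod_cls v hτ'] at h1
        exact hW h1
      rw [this, mul_zero]
  have hmain : pr P ≤ c * pr (fun τ : Equiv.Perm (Fin n) => bprod v τ D ∈ S) := by
    unfold pr
    rw [← mul_div_assoc]
    apply div_le_div_of_nonneg_right _ hcardpos.le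
    calc _ = ((univ.filter P).card : ℝ) := by congr!
      _ ≤ _ := hnum
      _ = _ := by congr!
  calc pr P ≤ c * pr (fun τ : Equiv.Perm (Fin n) => bprod v τ D ∈ S) := hmain
    _ ≤ c * ((S.card : ℝ) / ((n : ℝ) - D.card + 1)) := mul_le_mul_of_nonneg_left hex hc0

end Pool.Agent.Helper51.PF
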