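import Pool.Agent.Helper51.PF.Goals

namespace Pool.Agent.Helper51.PF

open Finset Filter Topology

/-- choice of K -/
lemma choose_K (ε : ℝ) (hε : 0 < ε) : ∃ K : ℕ, Even K ∧ (4 : ℝ) ^ (K + 1) / ((K + 1).factorial : ℝ) ≤ ε / 4 := by
  have h := FloorSemiring.tendsto_pow_div_factorial_atTop (4 : ℝ)
  have h2 := (h.eventually (gt_mem_nhds (show (0 : ℝ) < ε / 4 by positivity))).exists_forall_of_atTop
  obtain ⟨n0, hn0⟩ := h2
  refine ⟨2 * n0, even_two_mul _, ?_⟩
  exact (hn0 (2 * n0 + 1) (by omega)).le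

theorem g_pt (hPTQ : G_PTQ) : G_PT := by
  intro ε hε
  obtain ⟨K, hKe, hK⟩ := choose_K ε hε
  -- A with A log(5/4) ≥ 2K+6
  have hl54 : 0 < Real.log (5 / 4) := Real.log_pos (by norm_num)
  set A : ℝ := max 1 ((2 * K + 6) / Real.log (5 / 4)) with hA
  have hA1 : 1 ≤ A := le_max_left _ _
  have hA2 : (2 * (K : ℝ) + 6) ≤ A * Real.log (5 / 4) := by
    have : (2 * (K : ℝ) + 6) / Real.log (5 / 4) ≤ A := le_max_right _ _
    rwa [div_le_iff₀ hl54] at this
  -- constants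
  set C1 : ℝ := (K + 2) * ((10 * K + 20) * 4 ^ (K + 1)) + 28 with hC1
  have hC1pos : 0 < C1 := by positivity
  -- N0: log N ≥ 1, (K+2) 4^(K+1) / N ≤ ε/4
  set M : ℝ := (K + 2) * 4 ^ (K + 1) with hM
  have hMpos : 0 < M := by positivity
  set δ : ℝ := min (ε / (4 * C1 * (2 * A))) (1 / 1000 / (2 * A)) with hδ
  have hδpos : 0 < δ := by positivity
  obtain ⟨N0, hN0⟩ := exists_nat_ge (max (Real.exp 1) (4 * M / ε))
  refine ⟨N0, δ, hδpos, ?_⟩
  intro G _ _ n β v B hN hβ hnβ hlog hinj hSC hB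
  have hNr : (N0 : ℝ) ≤ (Fintype.card G : ℝ) := by exact_mod_cast hN
  set N : ℝ := (Fintype.card G : ℝ) with hNdef
  have hNe : Real.exp 1 ≤ N := le_trans (le_trans (le_max_left _ _) hN0) hNr
  have hNM : 4 * M / ε ≤ N := le_trans (le_trans (le_max_right _ _) hN0) hNr
  have hNpos : 0 < N := lt_of_lt_of_le (Real.exp_pos 1) hNe
  have hlogN : 1 ≤ Real.log N := by
    rw [Real.le_log_iff_exp_le hNpos]; exact hNe
  have hβr : (1 : ℝ) ≤ β := by exact_mod_cast hβ
  -- n is large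
  have hnpos : (0 : ℝ) < n := by
    by_contra hn
    have hn0 : (n : ℝ) = 0 := le_antisymm (not_lt.mp hn) (Nat.cast_nonneg n)
    rw [hn0, mul_zero] at hlog
    nlinarith
  have hδ1 : δ * (2 * A) ≤ 1 / 1000 := by
    have : δ ≤ 1 / 1000 / (2 * A) := min_le_right _ _
    rwa [le_div_iff₀ (by positivity)] at this
  have hδ2 : C1 * (δ * (2 * A)) ≤ ε / 4 := by
    have : δ ≤ ε / (4 * C1 * (2 * A)) := min_le_left _ _
    rw [le_div_iff₀ (by positivity)] at this
    nlinarith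
  -- L
  set L : ℕ := ⌈A * Real.log N⌉₊ with hL
  have hL1 : A * Real.log N ≤ L := Nat.le_ceil _
  have hLub : (L : ℝ) < A * Real.log N + 1 := Nat.ceil_lt_add_one (by positivity)
  have hLub2 : (L : ℝ) ≤ 2 * A * Real.log N := by nlinarith
  -- L β ≤ 2 A δ n
  have hLβ : (L : ℝ) * β ≤ (δ * (2 * A)) * n := by
    calc (L : ℝ) * β ≤ 2 * A * Real.log N * β := by
          apply mul_le_mul_of_nonneg_right hLub2 (by positivity)
      _ = 2 * A * (β * Real.log N) := by ring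
      _ ≤ 2 * A * (δ * n) := by
          apply mul_le_mul_of_nonneg_left hlog (by positivity)
      _ = (δ * (2 * A)) * n := by ring
  have hLβn : (L : ℝ) * β / n ≤ δ * (2 * A) := by
    rw [div_le_iff₀ hnpos]; exact hLβ
  have hLβ0 : 0 ≤ (L : ℝ) * β / n := by positivity
  have hLn : (L : ℝ) * 1000 ≤ n := by
    have h1 : (L : ℝ) ≤ L * β := by nlinarith [Nat.cast_nonneg (α := ℝ) L]
    nlinarith
  have hLpos : 1 ≤ L := by
    have : (0 : ℝ) < L := by nlinarith
    exact_mod_cast this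
  have hLn' : L * 1000 ≤ n := by exact_mod_cast hLn
  -- (4/5)^L ≤ N^{-(2K+6)}
  have hpow : ((4 : ℝ) / 5) ^ L ≤ 1 / N ^ (2 * K + 6) := by
    have h1 : ((4 : ℝ) / 5) ^ L = Real.exp (-(L * Real.log (5 / 4))) := by
      have h2 : (4 : ℝ) / 5 = Real.exp (-Real.log (5 / 4)) := by
        rw [Real.exp_neg, Real.exp_log (by norm_num)]; norm_num
      rw [h2, ← Real.exp_nat_mul]
      congr 1
      ring
    have h3 : (1 : ℝ) / N ^ (2 * K + 6) = Real.exp (-((2 * K + 6 : ℕ) * Real.log N)) := by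
      rw [Real.exp_neg, Real.exp_nat_mul, Real.exp_log hNpos, one_div]
    rw [h1, h3]
    apply Real.exp_le_exp.mpr
    apply neg_le_neg
    push_cast
    calc (2 * (K : ℝ) + 6) * Real.log N ≤ (A * Real.log (5 / 4)) * Real.log N := by
          apply mul_le_mul_of_nonneg_right hA2 (by linarith)
      _ = (A * Real.log N) * Real.log (5 / 4) := by ring
      _ ≤ L * Real.log (5 / 4) := by
          apply mul_le_mul_of_nonneg_right hL1 hl54.le
  have hN1 : 1 ≤ N := le_trans (by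
    have := Real.add_one_le_exp (1 : ℝ); linarith) hNe
  have hpow1 : ((4 : ℝ) / 5) ^ L ≤ 1 / N ^ (K + 1) := by
    refine le_trans hpow ?_
    apply one_div_le_one_div_of_le (by positivity)
    exact pow_le_pow_right₀ hN1 (by omega)
  have hpow2 : (K + 2 : ℝ) * ((4 * N) ^ (K + 1) * ((4 : ℝ) / 5) ^ L) ≤ ε / 4 := by
    have h1 : (4 * N) ^ (K + 1) * ((4 : ℝ) / 5) ^ L ≤ 4 ^ (K + 1) / N := by
      calc (4 * N) ^ (K + 1) * ((4 : ℝ) / 5) ^ L ≤ (4 * N) ^ (K + 1) * (1 / N ^ (2 * K + 6)) := by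
            apply mul_le_mul_of_nonneg_left hpow (by positivity)
        _ ≤ (4 * N) ^ (K + 1) * (1 / N ^ (K + 2)) := by
            apply mul_le_mul_of_nonneg_left _ (by positivity)
            apply one_div_le_one_div_of_le (by positivity)
            exact pow_le_pow_right₀ hN1 (by omega)
        _ = 4 ^ (K + 1) / N := by
            rw [mul_pow, pow_succ N (K + 1)]
            field_simp
    calc (K + 2 : ℝ) * ((4 * N) ^ (K + 1) * ((4 : ℝ) / 5) ^ L) ≤ (K + 2) * (4 ^ (K + 1) / N) := by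
          apply mul_le_mul_of_nonneg_left h1 (by positivity)
      _ = M / N := by rw [hM]; ring
      _ ≤ ε / 4 := by
          rw [div_le_iff₀ hNpos]
          rw [div_le_iff₀ hε] at hNM
          linarith
  have key := hPTQ G n L β K v B hinj hSC (by omega) hLpos (by omega) hβ hnβ hB hKe hpow1
  refine le_trans key ?_
  have e1 : 4 ^ (K + 1) / ((K + 1).factorial : ℝ) + (K + 2) * ((10 * K + 20) * 4 ^ (K + 1) *
      ((L : ℝ) * β / n) + (4 * N) ^ (K + 1) * (4 / 5 : ℝ) ^ L) +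
      28 * ((L : ℝ) * β / n) = 4 ^ (K + 1) / ((K + 1).factorial : ℝ) + C1 * ((L : ℝ) * β / n) +
      (K + 2) * ((4 * N) ^ (K + 1) * ((4 : ℝ) / 5) ^ L) := by rw [hC1]; ring
  rw [e1]
  have e2 : C1 * ((L : ℝ) * β / n) ≤ ε / 4 := by
    calc C1 * ((L : ℝ) * β / n) ≤ C1 * (δ * (2 * A)) := mul_le_mul_of_nonneg_left hLβn hC1pos.le
      _ ≤ ε / 4 := hδ2
  linarith

end Pool.Agent.Helper51.PF
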