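import Pool.Agent.Helper51.PF.Chain
import Pool.Agent.Helper51.PF.PT
import Pool.Agent.Helper51.PF.NR
import Pool.Agent.Helper36.PF.ORT
import Pool.Agent.Helper23.PF.VAL
import Pool.Agent.Helper86.PF.SEQ
import Pool.Agent.Helper14.PF.SWP
import Pool.Agent.Helper16.PF.LF
import Pool.Agent.Helper35.PF.EX
import Pool.Agent.Helper57.PF.FAR
import Pool.Agent.Helper57.PF.FARB
import Pool.Agent.Helper16.PF.NEARB
import Pool.Agent.Helper87.PF.FHS
import Pool.Agent.Helper93.PF.BON
import Pool.Agent.Helper41.PF.PEX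
import Pool.Agent.Helper48.PF.PTQ
import Pool.Agent.Helper53.PF.GEO
import Pool.Agent.Helper32.PF.HSUM
import Pool.Agent.Helper35.PF.PV
import Pool.Agent.Helper64.PF.MV
import Pool.Agent.Helper85.PF.VV
import Pool.Agent.Helper57.PF.PVX
import Pool.Agent.Helper46.PF.RED
import Pool.Agent.Helper20.PF.STR
import Pool.Agent.Helper35.PF.ROOT
import Pool.Agent.Helper59.PF.CB1
import Pool.Agent.Helper95.PF.CB2
import Pool.Agent.Helper57.PF.EXD
import Pool.Agent.Helper51.PF.EXC

/-! Limit law of the least index for perturbed factorials: all packets together. -/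

namespace Pool.Agent.Helper51.PF

theorem allPF : FinalStmt :=
  chain Helper36.PF.g_ort Helper23.PF.g_val Helper86.PF.g_seq Helper14.PF.g_swp
    Helper16.PF.g_lf Helper35.PF.g_ex g_nr Helper57.PF.g_far Helper57.PF.g_farb
    Helper16.PF.g_nearb Helper87.PF.g_fhs Helper93.PF.g_bon Helper41.PF.g_pex
    Helper48.PF.g_ptq g_pt Helper53.PF.g_geo Helper32.PF.g_hsum Helper35.PF.g_pv
    Helper64.PF.g_mv Helper85.PF.g_vv Helper57.PF.g_pvx Helper46.PF.g_red Helper20.PF.g_str
    Helper35.PF.g_root Helper59.PF.g_cb1 Helper95.PF.g_cb2 Helper57.PF.g_exd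
    g_exc

end Pool.Agent.Helper51.PF
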