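import Pool.Agent.Helper51.PF.Goals

/-! Assembly of the main law from the packets. -/

namespace Pool.Agent.Helper51.PF

open Finset Filter Topology

/-- growth facts for large p -/
lemma growth (δ ε : ℝ) (hδ : 0 < δ) (hε : 0 < ε) : ∃ p0 : ℕ, ∀ p : ℕ, p0 ≤ p → ∀ s : ℕ, 1 ≤ s →
    (s : ℝ) * (Real.log p) ^ 2 ≤ Real.sqrt p →
    (2 * (s : ℝ) ^ 2 + 2 * s + 3) / ((p : ℝ) - 1) ≤ ε ∧
    (2 * (s : ℝ) * Real.log ((p : ℝ) - 1)) * (s : ℝ) ≤ δ * (((p : ℝ) - 3) / 2) ∧
    (s : ℝ) ≤ ((p : ℝ) - 1) / 2 := by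
  -- log p → ∞
  have hlog : Tendsto (fun p : ℕ => Real.log (p : ℝ)) atTop atTop :=
    Real.tendsto_log_atTop.comp tendsto_natCast_atTop_atTop
  obtain ⟨p1, hp1⟩ := (hlog.eventually_ge_atTop (max 2 (max (28 / ε) (16 / δ)))).exists_forall_of_atTop
  refine ⟨max p1 10, fun p hp s hs hsl => ?_⟩
  have hp10 : (10 : ℝ) ≤ p := by exact_mod_cast le_trans (le_max_right _ _) hp
  have hL := hp1 p (le_trans (le_max_left _ _) hp)
  set l := Real.log (p : ℝ) with hl
  have h2 : 2 ≤ l := le_trans (le_max_left _ _) hL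
  have h3 : 28 / ε ≤ l := le_trans (le_trans (le_max_left _ _) (le_max_right _ _)) hL
  have h4 : 16 / δ ≤ l := le_trans (le_trans (le_max_right _ _) (le_max_right _ _)) hL
  have hs1 : (1 : ℝ) ≤ s := by exact_mod_cast hs
  have hp0 : (0 : ℝ) ≤ p := by linarith
  have hsq : Real.sqrt p ^ 2 = p := Real.sq_sqrt hp0
  -- s² l⁴ ≤ p
  have hsl2 : (s : ℝ) ^ 2 * l ^ 4 ≤ p := by
    have h := pow_le_pow_left₀ (by positivity) hsl 2
    rw [hsq] at h
    calc (s : ℝ) ^ 2 * l ^ 4 = ((s : ℝ) * l ^ 2) ^ 2 := by ring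
      _ ≤ (p : ℝ) := h
  have hl0 : 0 < l := by linarith
  have hl3 : l ^ 3 ≥ 8 := by nlinarith [sq_nonneg (l - 2), sq_nonneg l, mul_pos hl0 hl0]
  have hs2 : (s : ℝ) ≤ (s : ℝ) ^ 2 := by nlinarith
  have hs3 : (1 : ℝ) ≤ (s : ℝ) ^ 2 := by nlinarith
  -- s² * l ≤ p / 8 ... using l^4 = l * l^3
  have h5 : (s : ℝ) ^ 2 * l * 8 ≤ p := by
    have : (s : ℝ) ^ 2 * l * 8 ≤ (s : ℝ) ^ 2 * l * l ^ 3 := by
      apply mul_le_mul_of_nonneg_left hl3 (by positivity)
    calc (s : ℝ) ^ 2 * l * 8 ≤ (s : ℝ) ^ 2 * l * l ^ 3 := this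
      _ = (s : ℝ) ^ 2 * l ^ 4 := by ring
      _ ≤ (p : ℝ) := hsl2
  have h6 : (s : ℝ) ^ 2 * l ^ 2 * 4 ≤ p := by
    have hl22 : l ^ 2 ≥ 4 := by nlinarith
    have : (s : ℝ) ^ 2 * l ^ 2 * 4 ≤ (s : ℝ) ^ 2 * l ^ 2 * l ^ 2 := by
      apply mul_le_mul_of_nonneg_left hl22 (by positivity)
    calc (s : ℝ) ^ 2 * l ^ 2 * 4 ≤ (s : ℝ) ^ 2 * l ^ 2 * l ^ 2 := this
      _ = (s : ℝ) ^ 2 * l ^ 4 := by ring
      _ ≤ (p : ℝ) := hsl2
  refine ⟨?_, ?_, ?_⟩
  · rw [div_le_iff₀ (by linarith)]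
    have he : 28 ≤ ε * l := by
      rw [div_le_iff₀ hε] at h3; linarith
    -- 7 s² ≤ ε (p-1)
    have h7 : 2 * (s : ℝ) ^ 2 + 2 * s + 3 ≤ 7 * (s : ℝ) ^ 2 := by nlinarith
    have h8 : 7 * (s : ℝ) ^ 2 * 4 ≤ ε * l * (s : ℝ) ^ 2 := by nlinarith
    have h9 : ε * l * (s : ℝ) ^ 2 ≤ ε * (p / 8) := by
      have : (s : ℝ) ^ 2 * l ≤ p / 8 := by linarith
      calc ε * l * (s : ℝ) ^ 2 = ε * ((s : ℝ) ^ 2 * l) := by ring
        _ ≤ ε * (p / 8) := mul_le_mul_of_nonneg_left this hε.le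
    have h10 : ε * (p / 8) ≤ ε * (p - 1) := by
      apply mul_le_mul_of_nonneg_left _ hε.le; linarith
    nlinarith
  · have hlm : Real.log ((p : ℝ) - 1) ≤ l := Real.log_le_log (by linarith) (by linarith)
    have hd : 16 ≤ δ * l := by
      rw [div_le_iff₀ hδ] at h4; linarith
    have h11 : (2 * (s : ℝ) * Real.log ((p : ℝ) - 1)) * (s : ℝ) ≤ 2 * ((s : ℝ) ^ 2 * l) := by
      have : (s : ℝ) ^ 2 * Real.log ((p : ℝ) - 1) ≤ (s : ℝ) ^ 2 * l :=
        mul_le_mul_of_nonneg_left hlm (by positivity)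
      nlinarith
    have h12 : 2 * ((s : ℝ) ^ 2 * l) * 16 ≤ 2 * ((s : ℝ) ^ 2 * l) * (δ * l) :=
      mul_le_mul_of_nonneg_left hd (by positivity)
    have h13 : 2 * ((s : ℝ) ^ 2 * l) * (δ * l) = 2 * δ * ((s : ℝ) ^ 2 * l ^ 2) := by ring
    have h14 : 2 * δ * ((s : ℝ) ^ 2 * l ^ 2) ≤ 2 * δ * (p / 4) := by
      apply mul_le_mul_of_nonneg_left _ (by positivity); linarith
    have h15 : δ * p / 32 ≤ δ * (((p : ℝ) - 3) / 2) := by
      have : p / 32 ≤ ((p : ℝ) - 3) / 2 := by linarith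
      calc δ * p / 32 = δ * (p / 32) := by ring
        _ ≤ δ * (((p : ℝ) - 3) / 2) := mul_le_mul_of_nonneg_left this hδ.le
    nlinarith
  · -- s ≤ s² l²*... s ≤ (p-1)/2
    have h16 : (s : ℝ) ^ 2 * 4 * 4 ≤ p := by
      have hl22 : l ^ 2 ≥ 4 := by nlinarith
      have : (s : ℝ) ^ 2 * 4 * 4 ≤ (s : ℝ) ^ 2 * l ^ 2 * 4 := by
        have := mul_le_mul_of_nonneg_left hl22 (show 0 ≤ (s : ℝ) ^ 2 by positivity)
        linarith
      linarith
    nlinarith

theorem mainLaw (hPT : G_PT) (hPVX : G_PVX) (hMV : G_MV) (hVV : G_VV) (hRED : G_RED) (hSTR : G_STR)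
    (hCB1 : G_CB1) (hCB2 : G_CB2) : MainLaw := by
  intro ε hε
  obtain ⟨N0, δ, hδ, hPT'⟩ := hPT (ε / 2) (by positivity)
  obtain ⟨p1, hPVX'⟩ := hPVX
  obtain ⟨p2, hgr⟩ := growth δ (ε / 2) hδ (by positivity)
  refine ⟨max (N0 + 1) (max p1 (max p2 10)), fun p hp hpp s hs hsl hE n0 hn0 => ?_⟩
  have : Fact p.Prime := ⟨hp⟩
  have hpN : N0 + 1 ≤ p := le_trans (le_max_left _ _) hpp
  have hp1 : p1 ≤ p := le_trans (le_trans (le_max_left _ _) (le_max_right _ _)) hpp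
  have hp2 : p2 ≤ p := le_trans (le_trans (le_trans (le_max_left _ _) (le_max_right _ _)) (le_max_right _ _)) hpp
  have hp10 : 10 ≤ p := le_trans (le_trans (le_trans (le_max_right _ _) (le_max_right _ _)) (le_max_right _ _)) hpp
  obtain ⟨g1, g2, g3⟩ := hgr p hp2 s hs hsl
  have hp10' : (10 : ℝ) ≤ p := by exact_mod_cast hp10
  have hodd : p % 2 = 1 := by
    rcases hp.eq_two_or_odd with h | h
    · omega
    · exact h
  have hh2 : p - 1 = 2 * hh p := by unfold hh; omega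
  have hh1 : 1 ≤ hh p := by omega
  have hhR : (hh p : ℝ) = ((p : ℝ) - 1) / 2 := by
    have h : ((p - 1 : ℕ) : ℝ) = ((2 * hh p : ℕ) : ℝ) := by rw [hh2]
    rw [Nat.cast_sub (by omega)] at h
    push_cast at h
    linarith
  have hcard : Fintype.card (ZMod p)ˣ = p - 1 := ZMod.card_units p
  have hcardR : ((Fintype.card (ZMod p)ˣ : ℕ) : ℝ) = (p : ℝ) - 1 := by
    rw [hcard, Nat.cast_sub (by omega)]; simp
  -- apply PT
  have hSC : SmallChar (vv p s) := hPVX' p s hp1 hs hsl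
  have hinj := (hVV p s (by omega) hs).2
  -- k * s ≤ 2h
  have hks : kk p s * s ≤ 2 * hh p := by
    unfold kk
    have h1 : (hh p - 1) / s * s ≤ hh p - 1 := Nat.div_mul_le_self _ _
    have h2 : s ≤ hh p := by
      have : (s : ℝ) ≤ (hh p : ℝ) := by rw [hhR]; exact g3
      exact_mod_cast this
    rw [add_mul, one_mul]
    omega
  have hkb : kk p s * (2 * s) ≤ 4 * Fintype.card (ZMod p)ˣ := by
    rw [hcard, hh2]; nlinarith
  have hkreal : ((hh p : ℝ) - 1) / s ≤ kk p s := by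
    have hs0 : (0 : ℝ) < s := by exact_mod_cast hs
    rw [div_le_iff₀ hs0]
    have h1 : hh p - 1 < ((hh p - 1) / s + 1) * s := by
      rw [add_mul, one_mul]
      exact Nat.lt_div_mul_add (by omega)
    have h2 : hh p ≤ kk p s * s := by unfold kk; omega
    have h3 : (hh p : ℝ) ≤ (kk p s : ℝ) * s := by exact_mod_cast h2
    linarith
  have hlogc : ((2 * s : ℕ) : ℝ) * Real.log ((Fintype.card (ZMod p)ˣ : ℕ) : ℝ) ≤ δ * (kk p s : ℝ) := by
    rw [hcardR]
    have hs0 : (0 : ℝ) < s := by exact_mod_cast hs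
    have h1 : ((2 * s : ℕ) : ℝ) * Real.log ((p : ℝ) - 1) ≤ δ * (((hh p : ℝ) - 1) / s) := by
      rw [mul_div_assoc', le_div_iff₀ hs0, hhR]
      push_cast
      have h3 : ((p : ℝ) - 1) / 2 - 1 = ((p : ℝ) - 3) / 2 := by ring
      rw [h3]
      exact g2
    exact le_trans h1 (mul_le_mul_of_nonneg_left hkreal hδ.le)
  have key := hPT' (ZMod p)ˣ (kk p s) (2 * s) (vv p s) (fun r => BB p s n0 r) (by rw [hcard]; omega) (by omega)
    hkb hlogc hinj hSC (fun r => hCB1 p s n0 r (by omega) hs)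
  rw [hcardR] at key
  -- compare exponents
  have hsum : |(∑ r ∈ Finset.Ico 1 (kk p s), ((BB p s n0 r).card : ℝ) / ((p : ℝ) - 1)) -
      cc p n0 / ((p : ℝ) - 1)| ≤ ε / 2 := by
    rw [← Finset.sum_div, ← sub_div, abs_div, abs_of_pos (show (0 : ℝ) < (p : ℝ) - 1 by linarith)]
    refine le_trans ?_ g1
    apply div_le_div_of_nonneg_right (hCB2 p s n0 (by omega) hs hn0) (by linarith)
  have hccn : 0 ≤ cc p n0 := by
    unfold cc; split_ifs <;> positivity
  have hexp : |Real.exp (-(∑ r ∈ Finset.Ico 1 (kk p s), ((BB p s n0 r).card : ℝ) / ((p : ℝ) - 1))) -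
      Real.exp (-(cc p n0 / ((p : ℝ) - 1)))| ≤ ε / 2 := by
    refine le_trans ?_ hsum
    have hA : 0 ≤ ∑ r ∈ Finset.Ico 1 (kk p s), ((BB p s n0 r).card : ℝ) / ((p : ℝ) - 1) := by
      apply Finset.sum_nonneg; intro i _; apply div_nonneg (by positivity) (by linarith)
    have hB : 0 ≤ cc p n0 / ((p : ℝ) - 1) := div_nonneg hccn (by linarith)
    generalize (∑ r ∈ Finset.Ico 1 (kk p s), ((BB p s n0 r).card : ℝ) / ((p : ℝ) - 1)) = a at hA
    generalize cc p n0 / ((p : ℝ) - 1) = b at hB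
    have hone : ∀ x y : ℝ, 0 ≤ x → x ≤ y → Real.exp (-x) - Real.exp (-y) ≤ y - x := by
      intro x y hx hxy
      have h1 : Real.exp (-y) = Real.exp (-x) * Real.exp (-(y - x)) := by rw [← Real.exp_add]; ring_nf
      have h2 : 1 - (y - x) ≤ Real.exp (-(y - x)) := by
        have := Real.add_one_le_exp (-(y - x)); linarith
      have h3 : Real.exp (-x) ≤ 1 := by
        rw [Real.exp_le_one_iff]; linarith
      have h4 : 0 < Real.exp (-x) := Real.exp_pos _
      rw [h1]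
      nlinarith
    rcases le_total a b with hab | hab
    · have h1 := hone a b hA hab
      have h2 : Real.exp (-b) ≤ Real.exp (-a) := Real.exp_le_exp.mpr (by linarith)
      rw [abs_of_nonneg (by linarith), abs_of_nonpos (by linarith)]
      linarith
    · have h1 := hone b a hB hab
      have h2 : Real.exp (-a) ≤ Real.exp (-b) := Real.exp_le_exp.mpr (by linarith)
      rw [abs_of_nonpos (by linarith), abs_of_nonneg (by linarith)]
      linarith
  -- reduction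
  by_cases hc : n0 < hh p ∨ ((hh p).factorial : ZMod p) ≠ -1
  · have hpr : pr (fun σ : Equiv.Perm (moved p s) => NoHit p s σ n0) =
        pr (fun τ : Equiv.Perm (Fin (kk p s)) =>
          ∀ r, 1 ≤ r → r < kk p s → Tpr (vv p s) τ r ∉ BB p s n0 r) := by
      rw [← hSTR p s n0 (by omega) hs hE]
      congr 1
      funext σ
      rw [hRED p s n0 σ (by omega) hs hn0]
      simp only [hc, true_and]
    have hLam : Lam p n0 = Real.exp (-(cc p n0 / ((p : ℝ) - 1))) := by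
      unfold Lam cc
      by_cases h1 : n0 < hh p
      · simp only [h1, if_true]; congr 1; ring
      · have h2 : ((hh p).factorial : ZMod p) ≠ -1 := by
          rcases hc with h | h
          · exact absurd h h1
          · exact h
        simp only [h1, if_false, h2]
        congr 1
        have : (p : ℝ) - 1 ≠ 0 := by linarith
        field_simp
    rw [hpr, hLam]
    have h3 := abs_sub_le (pr (fun τ : Equiv.Perm (Fin (kk p s)) =>
          ∀ r, 1 ≤ r → r < kk p s → Tpr (vv p s) τ r ∉ BB p s n0 r))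
      (Real.exp (-(∑ r ∈ Finset.Ico 1 (kk p s), ((BB p s n0 r).card : ℝ) / ((p : ℝ) - 1))))
      (Real.exp (-(cc p n0 / ((p : ℝ) - 1))))
    linarith [key, hexp]
  · have h1 : ¬ n0 < hh p := fun h => hc (Or.inl h)
    have h2 : ((hh p).factorial : ZMod p) = -1 := by
      by_contra h; exact hc (Or.inr h)
    have hpr : pr (fun σ : Equiv.Perm (moved p s) => NoHit p s σ n0) = 0 := by
      have hno : ∀ σ : Equiv.Perm (moved p s), ¬ NoHit p s σ n0 := by
        intro σ h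
        rw [hRED p s n0 σ (by omega) hs hn0] at h
        exact hc h.1
      unfold pr
      simp [hno]
    have hLam : Lam p n0 = 0 := by
      unfold Lam; simp only [h1, if_false, h2, if_true]
    rw [hpr, hLam]
    simp only [sub_self, abs_zero]
    exact hε.le

end Pool.Agent.Helper51.PF
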