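import Pool.Agent.Helper51.PF.Fin

/-! Chain of the packets: the final statement from the packets with their hypotheses. -/

namespace Pool.Agent.Helper51.PF

theorem chain (ort : G_ORT) (val : G_VAL) (seq : G_SEQ) (swp : G_SWP)
    (lf : G_ORT → G_VAL → G_SEQ → G_SWP → G_LF) (ex : G_EX)
    (nr : G_LF → G_EX → G_NR) (far : G_LF → G_FAR) (farb : G_FAR → G_FARB)
    (nearb : G_NR → G_NEARB) (fhs : G_FARB → G_NEARB → G_FHS) (bon : G_BON) (pex : G_PEX)
    (ptq : G_FHS → G_EX → G_BON → G_PEX → G_PTQ) (pt : G_PTQ → G_PT)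
    (geo : G_GEO) (hsum : G_HSUM) (pv : G_GEO → G_HSUM → G_PV) (mv : G_MV) (vv : G_MV → G_VV)
    (pvx : G_MV → G_VV → G_PV → G_PVX) (red : G_RED) (str : G_MV → G_VV → G_STR) (root : G_ROOT)
    (cb1 : G_MV → G_VV → G_CB1) (cb2 : G_MV → G_VV → G_ROOT → G_CB2)
    (exd : G_EXD) (exc : G_EXD → G_EXC) : FinalStmt :=
  have LF := lf ort val seq swp
  have NR := nr LF ex
  have FARB := farb (far LF)
  have PT := pt (ptq (fhs FARB (nearb NR)) ex bon pex)
  have VV := vv mv
  final (mainLaw PT (pvx mv VV (pv geo hsum)) mv VV red (str mv VV) (cb1 mv VV) (cb2 mv VV root))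
    (exc exd)

end Pool.Agent.Helper51.PF
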