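import Mathlib

/-!
# MP_c27e85_nt, Theorem PF: limit law of the least index for perturbed factorials

Definitions.  Paper proof: /team-store/helper51_pf_proof.md
-/

namespace Pool.Agent.Helper51.PF

open Finset

/-! ## The perturbed lists -/

/-- `(p-1)/2`. -/
def hh (p : ℕ) : ℕ := (p - 1) / 2

/-- The moved residues: the `x` in `[1,(p-1)/2]` with `x ≡ (p-1)/2 mod s`. -/
def moved (p s : ℕ) : Finset ℕ := (Finset.Icc 1 (hh p)).filter (fun x => x % s = hh p % s)

/-- First half of the list belonging to the permutation `σ` of the moved residues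
(all other residues stay in their places). -/
def fsth (p s : ℕ) (σ : Equiv.Perm (moved p s)) (i : ℕ) : ℕ :=
  if hi : i ∈ moved p s then ((σ ⟨i, hi⟩ : moved p s) : ℕ) else i

/-- The list `a_1,…,a_{p-1}` of all nonzero residues, with `a_{p-i} = -a_i`. -/
def lst (p s : ℕ) (σ : Equiv.Perm (moved p s)) (i : ℕ) : ZMod p :=
  if i ≤ hh p then (fsth p s σ i : ZMod p) else -(fsth p s σ (p - i) : ZMod p)

/-- No product of the first `n` entries, `1 ≤ n ≤ n0`, is `-1`. -/
def NoHit (p s : ℕ) (σ : Equiv.Perm (moved p s)) (n0 : ℕ) : Prop :=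
  ∀ n, 1 ≤ n → n ≤ n0 → ∏ i ∈ Finset.Icc 1 n, lst p s σ i ≠ -1

/-- The natural list has no early hit: `m! ≠ -1`, and `m! ≠ 1` for even `m`, for `1 ≤ m < s`. -/
def EarlyFree (p s : ℕ) : Prop :=
  ∀ m, 1 ≤ m → m < s → (m.factorial : ZMod p) ≠ -1 ∧ (Even m → (m.factorial : ZMod p) ≠ 1)

/-- The limit law of the index. -/
noncomputable def Lam (p n0 : ℕ) : ℝ :=
  if n0 < hh p then Real.exp (-(n0 : ℝ) / ((p : ℝ) - 1))
  else if ((hh p).factorial : ZMod p) = -1 then 0
  else Real.exp (-((hh p : ℝ) + n0) / (2 * ((p : ℝ) - 1)))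

open Classical in
/-- Uniform probability of a property on a finite type. -/
noncomputable def pr {Ω : Type*} [Fintype Ω] (A : Ω → Prop) : ℝ :=
  ((univ.filter A).card : ℝ) / Fintype.card Ω

/-! ## The general Poisson theorem -/

noncomputable instance instFintypeChar (G : Type) [CommGroup G] [Fintype G] :
    Fintype (G →* ℂˣ) := by
  haveI : Finite (G →* ℂˣ) := inferInstance
  exact Fintype.ofFinite _

/-- Product of the values at the positions in `D`. -/
def bprod {G : Type} [CommGroup G] {n : ℕ} (v : Fin n → G) (τ : Equiv.Perm (Fin n))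
    (D : Finset (Fin n)) : G := ∏ i ∈ D, v (τ i)

/-- The product of the first `r` values. -/
def Tpr {G : Type} [CommGroup G] {n : ℕ} (v : Fin n → G) (τ : Equiv.Perm (Fin n)) (r : ℕ) : G :=
  bprod v τ (univ.filter (fun i : Fin n => (i : ℕ) < r))

/-- The permutations which agree with `τ0` on `D`. -/
def cls {n : ℕ} (τ0 : Equiv.Perm (Fin n)) (D : Finset (Fin n)) : Finset (Equiv.Perm (Fin n)) :=
  univ.filter (fun τ => ∀ x ∈ D, τ x = τ0 x)

/-- Elementary symmetric sum. -/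
def esum (Z : Finset ℕ) (b : ℕ → ℝ) (q : ℕ) : ℝ := ∑ R ∈ Z.powersetCard q, ∏ r ∈ R, b r

/-- All nontrivial character sums over the values are at most `n/4`. -/
def SmallChar {G : Type} [CommGroup G] {n : ℕ} (v : Fin n → G) : Prop :=
  ∀ ψ : G →* ℂˣ, ψ ≠ 1 → ‖∑ x, ((ψ (v x) : ℂˣ) : ℂ)‖ ≤ (n : ℝ) / 4

/-! ## Arithmetic part -/

/-- Number of moved residues. -/
def kk (p s : ℕ) : ℕ := (hh p - 1) / s + 1

/-- The moved residues in increasing order. -/
def xx (p s j : ℕ) : ℕ := hh p - (kk p s - 1) * s + j * s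

/-- Number of moved residues `≤ m`. -/
def rr (p s m : ℕ) : ℕ := ((moved p s).filter (fun x => x ≤ m)).card

/-- Partial products of the first half. -/
def PP (p s : ℕ) (σ : Equiv.Perm (moved p s)) (m : ℕ) : ZMod p :=
  ∏ i ∈ Finset.Icc 1 m, (fsth p s σ i : ZMod p)

/-- Targets at `m` (for `1 ≤ m < (p-1)/2`). -/
def tgt (p n0 m : ℕ) : Finset (ZMod p) :=
  if n0 < hh p then (if m ≤ n0 then {-1} else ∅)
  else (if Even m ∧ p - 1 ≤ m + n0 then {-1, 1} else {-1})

/-- The constant `c(n0)`: expected number of hits is `c(n0)/(p-1)`. -/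
noncomputable def cc (p n0 : ℕ) : ℝ := if n0 < hh p then (n0 : ℝ) else ((hh p : ℝ) + n0) / 2

/-- The values `v_j = x_j` as units. -/
def vv (p s : ℕ) [Fact p.Prime] : Fin (kk p s) → (ZMod p)ˣ := fun j =>
  if hx : (xx p s j : ZMod p) ≠ 0 then Units.mk0 _ hx else 1

/-- The multiplier `W_m = m! / ∏_{j<r(m)} x_j`. -/
def Wm (p s m : ℕ) [Fact p.Prime] : ZMod p :=
  (m.factorial : ZMod p) / ∏ j ∈ range (rr p s m), (xx p s j : ZMod p)

open Classical in
/-- The forbidden set for the partial product `T_r`. -/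
noncomputable def BB (p s n0 r : ℕ) [Fact p.Prime] : Finset (ZMod p)ˣ :=
  univ.filter (fun g => ∃ m, 1 ≤ m ∧ m < hh p ∧ rr p s m = r ∧ Wm p s m * (g : ZMod p) ∈ tgt p n0 m)

/-! ## The main statement -/

/-- Part (i): the limit law, uniformly in `s` and `n0`. -/
def MainLaw : Prop :=
  ∀ ε > (0 : ℝ), ∃ p0 : ℕ, ∀ p : ℕ, p.Prime → p0 ≤ p → ∀ s : ℕ, 1 ≤ s →
    (s : ℝ) * (Real.log p) ^ 2 ≤ Real.sqrt p → EarlyFree p s → ∀ n0 ≤ p - 2,
    |pr (fun σ : Equiv.Perm (moved p s) => NoHit p s σ n0) - Lam p n0| ≤ ε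

open Classical in
/-- Part (ii): few exceptional primes. -/
def MainExc : Prop :=
  ∃ C : ℝ, ∀ x : ℝ, 2 ≤ x →
    (((Finset.range (⌊x⌋₊ + 1)).filter (fun p : ℕ => p.Prime ∧
      ∃ s : ℕ, (s : ℝ) * (Real.log p) ^ 2 ≤ Real.sqrt p ∧ ¬ EarlyFree p s)).card : ℝ)
      ≤ C * x / (Real.log x) ^ 4

/-- Part (iii): the identity permutation is the case of the problem. -/
def MainNat : Prop :=
  ∀ p : ℕ, p.Prime → 3 ≤ p → ∀ s n0 : ℕ, n0 ≤ p - 2 →
    (NoHit p s (Equiv.refl _) n0 ↔ ∀ n, 1 ≤ n → n ≤ n0 → ¬ p ∣ n.factorial + 1)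

end Pool.Agent.Helper51.PF
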