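import Pool.Agent.Helper51.PF.Asm

/-! The final statement from `MainLaw` and `MainExc`. -/

namespace Pool.Agent.Helper51.PF

open Finset

/-- The final statement. -/
def FinalStmt : Prop :=
  ∃ E : Set ℕ, (∃ C : ℝ, ∀ x : ℝ, 2 ≤ x →
      ((E ∩ {p : ℕ | (p : ℝ) ≤ x}).ncard : ℝ) ≤ C * x / (Real.log x) ^ 4) ∧
    ∀ ε > (0 : ℝ), ∃ p0 : ℕ, ∀ p : ℕ, p.Prime → p0 ≤ p → ∀ s : ℕ, 1 ≤ s →
      (s : ℝ) * (Real.log p) ^ 2 ≤ Real.sqrt p → (s ≤ 2 ∨ p ∉ E) → ∀ n0 ≤ p - 2,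
      |pr (fun σ : Equiv.Perm (moved p s) => NoHit p s σ n0) - Lam p n0| ≤ ε

lemma earlyFree_of_le_two (p s : ℕ) (hp : p.Prime) (h3 : 3 ≤ p) (hs : s ≤ 2) : EarlyFree p s := by
  intro m hm hms
  have hm1 : m = 1 := by omega
  subst hm1
  have : Fact (2 < p) := ⟨by omega⟩
  refine ⟨?_, fun h => absurd h (by decide)⟩
  simp only [Nat.factorial_one, Nat.cast_one]
  have h1 : (1 : ZMod p) ≠ -1 := by
    have : Fact p.Prime := ⟨hp⟩
    exact fun h => ZMod.neg_one_ne_one (n := p) h.symm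
  exact h1

theorem final (h1 : MainLaw) (h2 : MainExc) : FinalStmt := by
  classical
  obtain ⟨C, hC⟩ := h2
  refine ⟨{p : ℕ | p.Prime ∧ ∃ s : ℕ, (s : ℝ) * (Real.log p) ^ 2 ≤ Real.sqrt p ∧ ¬ EarlyFree p s},
    ⟨C, fun x hx => ?_⟩, fun ε hε => ?_⟩
  · refine le_trans ?_ (hC x hx)
    have : ({p : ℕ | p.Prime ∧ ∃ s : ℕ, (s : ℝ) * (Real.log p) ^ 2 ≤ Real.sqrt p ∧ ¬ EarlyFree p s} ∩
        {p : ℕ | (p : ℝ) ≤ x}) = ↑((Finset.range (⌊x⌋₊ + 1)).filter (fun p : ℕ => p.Prime ∧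
      ∃ s : ℕ, (s : ℝ) * (Real.log p) ^ 2 ≤ Real.sqrt p ∧ ¬ EarlyFree p s)) := by
      ext p
      simp only [Set.mem_inter_iff, Set.mem_setOf_eq, Finset.coe_filter, Finset.mem_range]
      constructor
      · rintro ⟨hp, hpx⟩
        exact ⟨Nat.lt_succ_of_le (Nat.le_floor hpx), hp⟩
      · rintro ⟨hp, hpx⟩
        refine ⟨hpx, ?_⟩
        have h3 : p ≤ ⌊x⌋₊ := Nat.lt_succ_iff.mp hp
        exact le_trans (Nat.cast_le.mpr h3) (Nat.floor_le (by linarith))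
    rw [this, Set.ncard_coe_finset]
  · obtain ⟨p0, hp0⟩ := h1 ε hε
    refine ⟨max p0 3, fun p hp hpp s hs hsl hE n0 hn0 => ?_⟩
    refine hp0 p hp (le_trans (le_max_left _ _) hpp) s hs hsl ?_ n0 hn0
    rcases hE with h | h
    · exact earlyFree_of_le_two p s hp (le_trans (le_max_right _ _) hpp) h
    · by_contra hne
      exact h ⟨hp, s, hsl, hne⟩

end Pool.Agent.Helper51.PF
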