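import Pool.Agent.Helper51.PF.Defs

/-!
# Packets of project PF (MP_c27e85_nt).  Complete paper proof: /team-store/helper51_pf_proof.md

Every packet is one `Prop` below; its docstring is a complete proof.  Prove it in your own folder as
`theorem g_xxx : G_XXX` (or with the packets named in the docstring as hypotheses).
-/

namespace Pool.Agent.Helper51.PF

open Finset

/-! ## A. Characters and random orderings -/

open Classical in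
/-- ORT (orthogonality).  For `q = 1`: if `g = 1` every term is 1 and
`Nat.card (G →* ℂˣ) = Nat.card G` (`CommGroup.card_monoidHom_of_hasEnoughRootsOfUnity`); if `g ≠ 1` take `φ0` with
`φ0 g ≠ 1` (`CommGroup.exists_apply_ne_one_of_hasEnoughRootsOfUnity`) and substitute `φ ↦ φ0 * φ`: `S = φ0(g) S`, so `S = 0`.
For general `q` the sum of products is the product of the sums (`Finset.prod_univ_sum`, `Fintype.piFinset_univ`). -/
def G_ORT : Prop := ∀ (G : Type) [CommGroup G] [Fintype G] (q : ℕ) (g : Fin q → G),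
  ∑ Φ : Fin q → (G →* ℂˣ), ∏ j, ((Φ j (g j) : ℂˣ) : ℂ) =
    if (∀ j, g j = 1) then ((Fintype.card G : ℂ)) ^ q else 0

/-- VAL.  Put `a x = ψ (v x)`, `‖a x‖ = 1` (finite group), `m = V.card`.
`‖a x + a y‖² = 2 + 2 Re(a x * conj (a y))`, so `∑_{x,y∈V} (‖a x + a y‖/2)² = (m² + ‖∑_V a‖²)/2`.
`‖∑_V a‖ ≤ ‖∑_all a‖ + (n - m) ≤ n/4 + n/100 = 0.26 n ≤ 0.263 m`, so the last sum is `≤ 0.535 m²`,
and Cauchy–Schwarz (`m²` terms) gives `∑ ‖..‖/2 ≤ m * sqrt(0.535 m²) ≤ 0.732 m²`. -/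
def G_VAL : Prop := ∀ (G : Type) [CommGroup G] [Fintype G] (n : ℕ) (v : Fin n → G), SmallChar v →
  ∀ ψ : G →* ℂˣ, ψ ≠ 1 → ∀ V : Finset (Fin n), (99 : ℝ) / 100 * n ≤ V.card → 1 ≤ n →
  ∑ x ∈ V, ∑ y ∈ V, (‖((ψ (v x) : ℂˣ) : ℂ) + ((ψ (v y) : ℂˣ) : ℂ)‖ / 2) ≤ 3 / 4 * (V.card : ℝ) ^ 2

/-- SEQ (sampling without replacement).  Induction on `L` (statement for the first `l` pairs, `l ≤ L`): let
`F τ = ∏_{i<l} f (τ (u i)) (τ (w i))`, `Q` = positions outside `D`, `u i`, `w i` (`i < l`); `u l, w l ∈ Q` are different.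
For different `a, b ∈ Q` there is a permutation `ρ` of the positions with `ρ (u l) = a`, `ρ (w l) = b` fixing everything outside `Q`
(product of two swaps of elements of `Q`); `τ ↦ τ * ρ` is a bijection of `cls τ0 D` which does not change `F`, so
`∑_τ F τ f (τ (u l)) (τ (w l)) = ∑_τ F τ f (τ a) (τ b)`.  Sum over the `c(c-1)` pairs `(a,b)`, `c = Q.card`:
for each `τ` `∑_{a≠b∈Q} f (τ a) (τ b) ≤ ∑_{x,y ∉ τ0(D)} f x y ≤ 3/4 n'^2`, `n' = n - D.card` (as `τ '' D = τ0 '' D`), `n' ≥ 990`.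
So the factor is `≤ (3/4) n'^2/(c(c-1))` and `c ≥ n' - 2(L-1)`, `100 L ≤ n ≤ (100/99) n'`, `c ≥ (97/99) n'`: factor `≤ 4/5`. -/
def G_SEQ : Prop := ∀ (n L : ℕ) (D : Finset (Fin n)) (τ0 : Equiv.Perm (Fin n))
  (u w : Fin L → Fin n) (f : Fin n → Fin n → ℝ),
  1000 ≤ n → 100 * L ≤ n → 100 * D.card ≤ n → Function.Injective u → Function.Injective w →
  (∀ i j, u i ≠ w j) → (∀ i, u i ∉ D) → (∀ i, w i ∉ D) → (∀ x y, 0 ≤ f x y) →
  (∑ x ∈ (D.image τ0)ᶜ, ∑ y ∈ (D.image τ0)ᶜ, f x y ≤ 3 / 4 * (((D.image τ0)ᶜ).card : ℝ) ^ 2) →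
  ∑ τ ∈ cls τ0 D, ∏ l, f (τ (u l)) (τ (w l)) ≤ (4 / 5 : ℝ) ^ L * (cls τ0 D).card

/-- SWP (exchange trick).  For a subset `E` of `Fin L` let `ρ_E` be the product of the (disjoint) swaps of `u l` and `w l`, `l ∈ E`;
`τ ↦ τ * ρ_E` is a bijection of `cls τ0 D` (all `u l, w l ∉ D`).  `Φ_j(bprod v (τ ρ_E) D_j)` is unchanged for `j ≠ j0`,
and for `j0` the factors `Φ_{j0}(v (τ (u l)))`, `l ∈ E`, are replaced by `Φ_{j0}(v (τ (w l)))`.
Average over the `2^L` subsets `E`: `∑_τ ∏_j ... = ∑_τ c(τ) ∏_l (Φ(v(τ(u l))) + Φ(v(τ(w l))))/2` with `‖c(τ)‖ = 1`.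
(Or induction on `L`: one exchange at a time.) -/
def G_SWP : Prop := ∀ (G : Type) [CommGroup G] [Fintype G] (n L q : ℕ) (v : Fin n → G)
  (D : Finset (Fin n)) (τ0 : Equiv.Perm (Fin n)) (Dj : Fin q → Finset (Fin n))
  (Φ : Fin q → (G →* ℂˣ)) (j0 : Fin q) (u w : Fin L → Fin n),
  Function.Injective u → Function.Injective w → (∀ i, u i ∈ Dj j0) → (∀ i, w i ∉ D) →
  (∀ i j, w i ∉ Dj j) → (∀ j, Disjoint (Dj j) D) → (∀ j j', j ≠ j' → Disjoint (Dj j) (Dj j')) →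
  ‖∑ τ ∈ cls τ0 D, ∏ j, ((Φ j (bprod v τ (Dj j)) : ℂˣ) : ℂ)‖ ≤
    ∑ τ ∈ cls τ0 D, ∏ l,
      (‖((Φ j0 (v (τ (u l))) : ℂˣ) : ℂ) + ((Φ j0 (v (τ (w l))) : ℂˣ) : ℂ)‖ / 2)

open Classical in
/-- LF (Lemma F; uses ORT, VAL, SEQ, SWP as hypotheses).  The number of `τ ∈ cls` with all `bprod v τ (Dj j) = t j` is
`N^{-q} ∑_Φ ∏_j Φ_j(t_j)⁻¹ ∑_{τ∈cls} ∏_j Φ_j(bprod v τ (Dj j))` (ORT with `g j = bprod v τ (Dj j) * (t j)⁻¹`).  The term `Φ = 1` is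
`N^{-q} cls.card`.  For `Φ ≠ 1` take `j0` with `Φ j0 ≠ 1`, injective `u : Fin L → Dj j0`, `w : Fin L →` complement of `D ∪ ⋃ Dj`;
SWP and then SEQ with `f x y = ‖Φ(v x)+Φ(v y)‖/2`, whose hypothesis is VAL with `V = (D.image τ0)ᶜ` (`V.card = n - D.card ≥ 0.99 n`),
give norm `≤ (4/5)^L cls.card`.  There are `< N^q` such `Φ` (card of the character group is `N`). -/
def G_LF : Prop := ∀ (G : Type) [CommGroup G] [Fintype G] (n L q : ℕ) (v : Fin n → G)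
  (D : Finset (Fin n)) (τ0 : Equiv.Perm (Fin n)) (Dj : Fin q → Finset (Fin n)) (t : Fin q → G),
  SmallChar v → 1000 ≤ n → 100 * L ≤ n → 100 * D.card ≤ n →
  (∀ j, Disjoint (Dj j) D) → (∀ j j', j ≠ j' → Disjoint (Dj j) (Dj j')) →
  (∀ j, L ≤ (Dj j).card) → L ≤ ((D ∪ univ.biUnion Dj)ᶜ).card →
  |(((cls τ0 D).filter (fun τ => ∀ j, bprod v τ (Dj j) = t j)).card : ℝ) -
      ((cls τ0 D).card : ℝ) / (Fintype.card G : ℝ) ^ q| ≤ (4 / 5 : ℝ) ^ L * (cls τ0 D).card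

/-- EX (exposure).  Let `i0 ∈ D`, `D' = D \ {i0}`.  Group the `τ` by `τ|_{D'}`: for fixed `τ|_{D'}` the value `τ i0` is equally likely among the
`n - D.card + 1` values not in `τ(D')` (composition with a swap of positions `i0` and `a`, `a ∉ D'`, is a bijection), and
`bprod v τ D ∈ S` means `v (τ i0) ∈ S * (∏_{D'})⁻¹`, at most `S.card` values of `τ i0` as `v` is injective.
Double counting version: count pairs `(τ, a)`, `a ∉ D'`, with `τ * swap i0 a` in the event: for each `τ` at most `S.card` of the `a`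
(they have different `v (τ a)`), and each element of the event is hit `n - D.card + 1` times. -/
def G_EX : Prop := ∀ (G : Type) [CommGroup G] [Fintype G] (n : ℕ) (v : Fin n → G)
  (D : Finset (Fin n)) (S : Finset G), Function.Injective v → D.Nonempty →
  pr (fun τ : Equiv.Perm (Fin n) => bprod v τ D ∈ S) ≤ (S.card : ℝ) / ((n : ℝ) - D.card + 1)

/-- NR (uses LF, EX).  `cls τ D` (`τ` any permutation) are the classes of the equivalence (equal on `D`), all of the same size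
`(n - D.card)!` (`τ' ↦ τ1 * τ0⁻¹ * τ'` maps `cls τ0 D` onto `cls τ1 D`).  On the class of `τ0` the product `W = bprod v τ D` is constant; if `W ∈ S`,
LF with the targets `t W` bounds the number of good `τ` in the class by `(N^{-q} + (4/5)^L)` times its size.  Sum over the classes
and EX.  (`∑_τ 1[good τ] = ∑_τ (cls τ D).card⁻¹ ∑_{τ' ∈ cls τ D} 1[good τ']`.) -/
def G_NR : Prop := ∀ (G : Type) [CommGroup G] [Fintype G] (n L q : ℕ) (v : Fin n → G)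
  (D : Finset (Fin n)) (Dj : Fin q → Finset (Fin n)) (S : Finset G) (t : G → Fin q → G),
  Function.Injective v → SmallChar v → 1000 ≤ n → 100 * L ≤ n → 100 * D.card ≤ n → D.Nonempty →
  (∀ j, Disjoint (Dj j) D) → (∀ j j', j ≠ j' → Disjoint (Dj j) (Dj j')) →
  (∀ j, L ≤ (Dj j).card) → L ≤ ((D ∪ univ.biUnion Dj)ᶜ).card →
  pr (fun τ : Equiv.Perm (Fin n) =>
      bprod v τ D ∈ S ∧ ∀ j, bprod v τ (Dj j) = t (bprod v τ D) j) ≤
    (1 / (Fintype.card G : ℝ) ^ q + (4 / 5 : ℝ) ^ L) * ((S.card : ℝ) / ((n : ℝ) - D.card + 1))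

/-- FAR (uses LF with `D = ∅`, so that `cls τ0 ∅ = univ`).  Let `r_1 < ... < r_q` be the elements of `R` (`q = R.card`, `R.orderEmbOfFin`), `r_0 = 0`;
blocks `D_j = {i : r_{j-1} ≤ i < r_j}` of length `≥ L`, the rest `{i ≥ r_q}` has length `> L` (for `R = ∅` the statement is `|1 - 1| ≤ ..`).
`T_{r_j} = t_j` for all `j` iff `bprod v τ D_j = t_j / t_{j-1}` for all `j` (`t_0 = 1`). -/
def G_FAR : Prop := ∀ (G : Type) [CommGroup G] [Fintype G] (n L : ℕ) (v : Fin n → G)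
  (R : Finset ℕ) (t : ℕ → G), SmallChar v → 1000 ≤ n → 100 * L ≤ n →
  (∀ r ∈ R, L < r ∧ r + L < n) → (∀ r ∈ R, ∀ r' ∈ R, r < r' → r + L ≤ r') →
  |pr (fun τ : Equiv.Perm (Fin n) => ∀ r ∈ R, Tpr v τ r = t r) -
      1 / (Fintype.card G : ℝ) ^ R.card| ≤ (4 / 5 : ℝ) ^ L

/-- FARB (uses FAR).  The event is the disjoint union over the choice functions `t ∈ ∏_{r∈R} B r` of the events of FAR;
there are `∏ (B r).card ≤ β^R.card` of them. -/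
def G_FARB : Prop := ∀ (G : Type) [CommGroup G] [Fintype G] (n L β : ℕ) (v : Fin n → G)
  (R : Finset ℕ) (B : ℕ → Finset G), SmallChar v → 1000 ≤ n → 100 * L ≤ n →
  (∀ r ∈ R, L < r ∧ r + L < n) → (∀ r ∈ R, ∀ r' ∈ R, r < r' → r + L ≤ r') →
  (∀ r, (B r).card ≤ β) →
  |pr (fun τ : Equiv.Perm (Fin n) => ∀ r ∈ R, Tpr v τ r ∈ B r) -
      ∏ r ∈ R, ((B r).card : ℝ) / Fintype.card G| ≤ (β : ℝ) ^ R.card * (4 / 5 : ℝ) ^ L

/-- NEARB (uses NR).  `R' = R \ {r} ∪ {r2}` has `q = R.card` elements; sum over the at most `β^q` choices `t` of the values of `T` on `R'`.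
Given `t`: `D = {i : r2 ≤ i < r}` (nonempty, less than `L` elements), `W = bprod v τ D`, `T_r = t(r2) W ∈ B r` iff `W ∈ S := (B r)/t(r2)`;
the conditions `T_{r'} = t_{r'}` (`r' ∈ R'`) say that the block products outside `D` have given values, where the first block after `r`
has the value `t_{next}/(t(r2) W)` (depends on `W`).  All blocks have length `≥ L`: the block before `r2` since `r2 > L` resp.
`r2 - r_prev ≥ 2L - L`, the rest since `n - max > L` (if `r = max R` the rest is `{i ≥ r}`).  NR, and `n - D.card + 1 ≥ n - L`. -/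
def G_NEARB : Prop := ∀ (G : Type) [CommGroup G] [Fintype G] (n L β : ℕ) (v : Fin n → G)
  (R : Finset ℕ) (B : ℕ → Finset G) (r r2 : ℕ), Function.Injective v → SmallChar v → 1000 ≤ n →
  100 * L ≤ n → (∀ r ∈ R, L < r ∧ r + L < n) → (∀ r ∈ R, ∀ r' ∈ R, r < r' → r + 2 * L ≤ r') →
  (∀ r, (B r).card ≤ β) → r ∈ R → r2 < r → r < r2 + L → L < r2 →
  pr (fun τ : Equiv.Perm (Fin n) => (∀ r' ∈ R, Tpr v τ r' ∈ B r') ∧ Tpr v τ r2 ∈ B r2) ≤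
    (β : ℝ) ^ R.card * (1 / (Fintype.card G : ℝ) ^ R.card + (4 / 5 : ℝ) ^ L) *
      ((β : ℝ) / ((n : ℝ) - L))

/-- First hit at `r` inside the window `(r - L, r]` of the zone `Z = (L, n - L)`. -/
def FirstHit {G : Type} [CommGroup G] {n : ℕ} (v : Fin n → G) (B : ℕ → Finset G) (L : ℕ)
    (τ : Equiv.Perm (Fin n)) (r : ℕ) : Prop :=
  Tpr v τ r ∈ B r ∧ ∀ r2 ∈ Finset.Ioo L (n - L), r2 < r → r < r2 + L → Tpr v τ r2 ∉ B r2

/-- `S'_q`: sum over the `q`-subsets of the zone of the probability of a first hit at every element. -/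
noncomputable def SS {G : Type} [CommGroup G] {n : ℕ} (v : Fin n → G) (B : ℕ → Finset G)
    (L q : ℕ) : ℝ :=
  ∑ R ∈ (Finset.Ioo L (n - L)).powersetCard q,
    pr (fun τ : Equiv.Perm (Fin n) => ∀ r ∈ R, FirstHit v B L τ r)

/-- FHS (uses FARB, NEARB).  `N = card G`, `b r = (B r).card / N`, `Z = Ioo L (n-L)`.  For `R ⊆ Z`, `R.card = q`:
(1) two elements at distance `< L`: probability 0 (the later one is not a first hit).
(2) all distances `≥ L`, some distance `< 2L`: `P ≤ ∏ b + β^q (4/5)^L ≤ 2 (β/N)^q` (FARB and `(4/5)^L ≤ N^{-q}`).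
(3) all distances `≥ 2L`: `|P(all T∈B) - ∏ b| ≤ β^q (4/5)^L` and `0 ≤ P(all T∈B) - P(all first hits) ≤ ∑_{r∈R} ∑_{r2∈Z, r-L<r2<r} P(all T∈B, T_{r2}∈B_{r2})
  ≤ q L β^q (2/N^q) (2β/n)` by NEARB (`n - L ≥ n/2`).
There are at most `2 L n^{q-1}` sets `R` with some distance `< 2L` (they have `q ≥ 2`; choose `r<r'<r+2L` and the other `q-2` elements) and at most `n^q` sets in all, so, with `n β ≤ 4N`:
`|S'_q - e_q| ≤ 2 L n^{q-1} * 3 (β/N)^q + n^q (β^q (4/5)^L + 4 q L β^q/N^q * β/n) ≤ 6 * 4^q L/n + (4N)^q (4/5)^L + 4 q 4^q L β/n`. -/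
def G_FHS : Prop := ∀ (G : Type) [CommGroup G] [Fintype G] (n L β q : ℕ) (v : Fin n → G)
  (B : ℕ → Finset G), Function.Injective v → SmallChar v → 1000 ≤ n → 1 ≤ L → 100 * L ≤ n →
  1 ≤ β → n * β ≤ 4 * Fintype.card G → (∀ r, (B r).card ≤ β) →
  (4 / 5 : ℝ) ^ L ≤ 1 / (Fintype.card G : ℝ) ^ q →
  |SS v B L q - esum (Finset.Ioo L (n - L)) (fun r => ((B r).card : ℝ) / Fintype.card G) q| ≤
    (10 * q + 10) * 4 ^ q * ((L : ℝ) * β / n) + (4 * (Fintype.card G : ℝ)) ^ q * (4 / 5 : ℝ) ^ L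

/-- BON (Bonferroni for general weights).  Write `R_K(Z) = ∑_{j≤K} (-1)^j e_j(Z)`.  Induction on `Z`: for `z ∉ Z`
`e_j(insert z Z) = e_j(Z) + b z e_{j-1}(Z)` (`Finset.powersetCard_succ_insert`), so `R_K(insert z Z) = R_K(Z) - b z R_{K-1}(Z)`, while
`∏_{insert z Z}(1-b) = ∏_Z (1-b) - b z ∏_Z (1-b)`; use the induction hypothesis for `K` and `K-1`.
Prove both parts together. -/
def G_BON : Prop := ∀ (Z : Finset ℕ) (b : ℕ → ℝ), (∀ r, 0 ≤ b r ∧ b r ≤ 1) → ∀ K : ℕ,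
  (Even K → ∏ r ∈ Z, (1 - b r) ≤ ∑ j ∈ range (K + 1), (-1 : ℝ) ^ j * esum Z b j) ∧
  (Odd K → ∑ j ∈ range (K + 1), (-1 : ℝ) ^ j * esum Z b j ≤ ∏ r ∈ Z, (1 - b r))

/-- PEX.  (a) `1 - x ≤ exp(-x) ≤ 1 - x + x²/2` for `0 ≤ x ≤ 1`; products of numbers in `[0,1]` differ by at most the sum of the differences.
(b) `e_q ≤ (∑ b)^q / q!` : expand the power, every `q`-set is counted `q!` times (or induction on `q`:
`q e_q = ∑_{R, |R| = q} ∑_{r ∈ R} b r ∏_{R \ r} b ≤ (∑ b) e_{q-1}`). -/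
def G_PEX : Prop := (∀ (Z : Finset ℕ) (b : ℕ → ℝ), (∀ r, 0 ≤ b r ∧ b r ≤ 1) →
    |∏ r ∈ Z, (1 - b r) - Real.exp (-(∑ r ∈ Z, b r))| ≤ ∑ r ∈ Z, (b r) ^ 2) ∧
  (∀ (Z : Finset ℕ) (b : ℕ → ℝ), (∀ r, 0 ≤ b r) → ∀ q : ℕ,
    esum Z b q ≤ (∑ r ∈ Z, b r) ^ q / (q.factorial : ℝ))

/-- PTQ (uses FHS, EX, BON, PEX).  `Z = Ioo L (n-L)`, `b r = (B r).card/N`, `K` even.
(1) Some `T_r ∈ B r` with `r ∈ Z` iff some first hit in `Z` (take the smallest `r`).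
(2) Pointwise BON for the indicators `b' r = 1[FirstHit r]` (`K` and `K+1`), averaged over `τ` (`∏_{r∈R} 1[..] = 1[∀ r∈R ..]`): `R'_{K+1} ≤ P(no first hit in Z) ≤ R'_K`,
 `R'_K = ∑_{j≤K} (-1)^j SS_j`; same for `∏_Z (1-b)` with `esum`.  Hence
 `|P(no first hit in Z) - ∏_Z (1 - b)| ≤ ∑_{j≤K+1} |SS_j - esum_j| + esum_{K+1}`, `esum_{K+1} ≤ 4^(K+1)/(K+1)!` by PEX(b) (`∑_Z b ≤ nβ/N ≤ 4`);
 FHS for each `j ≤ K+1` (its bound increases with `j`).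
(3) `1 ≤ r < n`, `r ∉ Z` (at most `2L` values): `P(T_r ∈ B r) ≤ β/(n-L) ≤ 2β/n`: for `r ≤ L` EX with `D = {i<r}`; for `r ≥ n-L` EX with `D = {i ≥ r}`, since
 `T_r = Π / bprod v τ D`, `Π = ∏ v`.  Total `≤ 4Lβ/n`.
(4) `|∏_Z (1-b) - exp(-∑_Z b)| ≤ (β/N) ∑_Z b ≤ 4β/N`, `|exp(-∑_Z b) - exp(-∑_{1≤r<n} b)| ≤ 2Lβ/N`, and `β/N ≤ 4/n`. -/
def G_PTQ : Prop := ∀ (G : Type) [CommGroup G] [Fintype G] (n L β K : ℕ) (v : Fin n → G)
  (B : ℕ → Finset G), Function.Injective v → SmallChar v → 1000 ≤ n → 1 ≤ L → 100 * L ≤ n →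
  1 ≤ β → n * β ≤ 4 * Fintype.card G → (∀ r, (B r).card ≤ β) → Even K →
  (4 / 5 : ℝ) ^ L ≤ 1 / (Fintype.card G : ℝ) ^ (K + 1) →
  |pr (fun τ : Equiv.Perm (Fin n) => ∀ r, 1 ≤ r → r < n → Tpr v τ r ∉ B r) -
      Real.exp (-(∑ r ∈ Finset.Ico 1 n, ((B r).card : ℝ) / Fintype.card G))| ≤
    4 ^ (K + 1) / ((K + 1).factorial : ℝ) + (K + 2) * ((10 * K + 20) * 4 ^ (K + 1) *
      ((L : ℝ) * β / n) + (4 * (Fintype.card G : ℝ)) ^ (K + 1) * (4 / 5 : ℝ) ^ L) +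
      28 * ((L : ℝ) * β / n)

/-- PT (Poisson theorem; uses PTQ).  Given `ε` choose `K` even with `4^(K+1)/(K+1)! ≤ ε/4`, then `A` with `A log(5/4) ≥ 2K+6`,
`L = ⌈A log N⌉₊`: `(4/5)^L ≤ N^{-(2K+6)}`, so `≤ N^{-(K+1)}` and `(K+2)(4N)^(K+1)(4/5)^L ≤ ε/4` for `N ≥ N0`.
`L β/n ≤ (A log N + 1) β/n ≤ 2A δ` (if `log N ≥ 1`, `A ≥ 1`), so choose `δ` small; `100 L ≤ n` because `β ≥ 1`, `log N ≤ δ n`; `n ≥ log N/δ ≥ 1000`. -/
def G_PT : Prop := ∀ ε > (0 : ℝ), ∃ N0 : ℕ, ∃ δ > (0 : ℝ), ∀ (G : Type) [CommGroup G] [Fintype G]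
  (n β : ℕ) (v : Fin n → G) (B : ℕ → Finset G), N0 ≤ Fintype.card G → 1 ≤ β →
  n * β ≤ 4 * Fintype.card G → (β : ℝ) * Real.log (Fintype.card G) ≤ δ * n →
  Function.Injective v → SmallChar v → (∀ r, (B r).card ≤ β) →
  |pr (fun τ : Equiv.Perm (Fin n) => ∀ r, 1 ≤ r → r < n → Tpr v τ r ∉ B r) -
      Real.exp (-(∑ r ∈ Finset.Ico 1 n, ((B r).card : ℝ) / Fintype.card G))| ≤ ε

/-! ## B. Pólya–Vinogradov -/

/-- GEO.  `∑_{j<k} z^j = (z^k-1)/(z-1)`, `z = exp(2πi a/p)`, `|z - 1| = 2 sin(πa/p)`, `|z^k - 1| ≤ 2`,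
`sin(πx) ≥ 2x` for `0 ≤ x ≤ 1/2` (`Real.mul_le_sin`), with `x = min(a,p-a)/p`. -/
def G_GEO : Prop := ∀ p a k : ℕ, 1 ≤ a → a < p →
  ‖∑ j ∈ range k, Complex.exp (2 * Real.pi * Complex.I * (a * j / p : ℝ))‖ ≤
    (p : ℝ) / (2 * (min a (p - a) : ℕ))

/-- HSUM.  `min(a,p-a) = a` or `p-a`: the sum is `≤ 2 ∑_{1≤a≤p/2} p/(2a) ≤ p (1 + log p)` (harmonic sum `≤ 1 + log`, e.g.
`harmonic_le_one_add_log`). -/
def G_HSUM : Prop := ∀ p : ℕ, 2 ≤ p →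
  ∑ a ∈ Finset.Ico 1 p, (p : ℝ) / (2 * (min a (p - a) : ℕ)) ≤ p * (1 + Real.log p)

/-- PV (uses GEO, HSUM).  With `e(x) = exp(2πi x/p)` (e.g. `ZMod.stdAddChar`): for all `x`,
`τ(χ⁻¹) χ(x) = ∑_{a mod p} χ⁻¹(a) e(ax)` (for `x = 0` both sides are 0 as `χ ≠ 1`), `|τ(χ⁻¹)| = sqrt p`
(from `gaussSum_mul_gaussSum_eq_card` and `conj τ(χ) = χ(-1) τ(χ⁻¹)`).  So
`sqrt p * |∑_{j<k} χ(c+j)| ≤ ∑_{a≠0} |∑_{j<k} e(a(c+j))| ≤ ∑_{1≤a<p} p/(2 min(a,p-a)) ≤ p(1+log p)`. -/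
def G_PV : Prop := ∀ (p : ℕ) [Fact p.Prime] (χ : MulChar (ZMod p) ℂ), χ ≠ 1 →
  ∀ (c : ZMod p) (k : ℕ), ‖∑ j ∈ range k, χ (c + (j : ZMod p))‖ ≤
    Real.sqrt p * (1 + Real.log p)

/-- MV (the moved residues; elementary).  For `1 ≤ hh p`, `1 ≤ s`: `kk p s = (h-1)/s + 1`, `x_j = h - (k-1)s + j s`;
`1 ≤ x_0 ≤ s`, `x_{k-1} = h`. -/
def G_MV : Prop := ∀ p s : ℕ, 1 ≤ hh p → 1 ≤ s →
  moved p s = (range (kk p s)).image (xx p s) ∧ (moved p s).card = kk p s ∧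
  1 ≤ xx p s 0 ∧ xx p s 0 ≤ s ∧ xx p s (kk p s - 1) = hh p ∧
  (∀ j, xx p s (j + 1) = xx p s j + s) ∧
  (∀ m r, r ≤ kk p s → (rr p s m = r ↔ ((r = 0 ∨ xx p s (r - 1) ≤ m) ∧ (r = kk p s ∨ m < xx p s r))))

/-- VV (uses MV).  `1 ≤ x_j ≤ h < p`, so `x_j ≠ 0` in `ZMod p` and the `x_j` are different mod `p`. -/
def G_VV : Prop := ∀ (p s : ℕ) [Fact p.Prime], 3 ≤ p → 1 ≤ s →
  (∀ j : Fin (kk p s), ((vv p s j : (ZMod p)ˣ) : ZMod p) = (xx p s j : ZMod p)) ∧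
  Function.Injective (vv p s)

/-- PVX (uses MV, VV, PV).  `ψ ≠ 1` extends to `χ : MulChar (ZMod p) ℂ` (`MulChar.ofUnitHom`), `χ ≠ 1`.
`∑_j ψ(v j) = ∑_{j<k} χ(x_0 + j s) = χ(s) ∑_{j<k} χ(x_0/s + j)`, norm `≤ sqrt p (1+log p)`.  `s < p` as `s log² p ≤ sqrt p`, so `s ≠ 0` mod `p`.
`k ≥ h/s ≥ ((p-1)/2) log² p/sqrt p ≥ sqrt p log² p/3`, and `sqrt p (1+log p) ≤ sqrt p log² p/12` for `p ≥ p0`. -/
def G_PVX : Prop := ∃ p0 : ℕ, ∀ (p s : ℕ) [Fact p.Prime], p0 ≤ p → 1 ≤ s →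
  (s : ℝ) * (Real.log p) ^ 2 ≤ Real.sqrt p → SmallChar (vv p s)

/-! ## C. Factorials -/

/-- RED (Section 1).  `P_m = PP p s σ m`, `a_i = lst p s σ i`, `h = hh p`, `p - 1 = 2h`.
`fsth` permutes `[1,h]` (`σ` permutes `moved`), so `P_h = h!` and `∏_{i=1}^{p-1} a_i = (-1)^h (h!)² = -1` (Wilson: `(p-1)! = -1` and pairing `i ↔ p-i`; apply the pairing to the natural
list too).  For `n ≤ h` the product of the first `n` entries is `P_n`; for `n = p-1-m`, `0 ≤ m ≤ h`: `∏_{i≤n} a_i * (-1)^m P_m = -1`, so it equals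
`(-1)^{m+1} P_m⁻¹`, and is `-1` iff `P_m = (-1)^m`.  If `n0 ≥ h`: hits `n ≤ h` and hits `n = p-1-m`, `p-1-n0 ≤ m < h`. For odd `m` the condition `P_m ≠ -1` is already there.
`P_m ≠ 0`. -/
def G_RED : Prop := ∀ (p s n0 : ℕ) [Fact p.Prime] (σ : Equiv.Perm (moved p s)), 3 ≤ p → 1 ≤ s →
  n0 ≤ p - 2 → (NoHit p s σ n0 ↔ (n0 < hh p ∨ ((hh p).factorial : ZMod p) ≠ -1) ∧
    ∀ m, 1 ≤ m → m < hh p → PP p s σ m ∉ tgt p n0 m)

/-- STR (Section 2; uses MV, VV).  The bijection `Fin k ≃ moved p s`, `j ↦ x_j` (increasing) turns `σ` into `τ`; for `m < h` and `r = rr p s m < k`: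
`P_m = ∏_{i≤m, i∉moved} i * ∏_{j<r} σ(x_j) = (m!/∏_{j<r} x_j) * T_r = Wm p s m * (Tpr (vv p s) τ r : ZMod p)`.
`r = 0` means `m < x_0 ≤ s`: then `P_m = m!`, which is not in `tgt p n0 m` by `EarlyFree` (whatever `n0`; `tgt ⊆ {-1} ∪ {1 if m even}`).
For `1 ≤ r < k` the condition for all `m` with `rr p s m = r` is exactly `T_r ∉ BB p s n0 r`; every `m < h` has `rr p s m < k` since `x_{k-1} = h`. -/
def G_STR : Prop := ∀ (p s n0 : ℕ) [Fact p.Prime], 3 ≤ p → 1 ≤ s → EarlyFree p s →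
  pr (fun σ : Equiv.Perm (moved p s) => ∀ m, 1 ≤ m → m < hh p → PP p s σ m ∉ tgt p n0 m) =
  pr (fun τ : Equiv.Perm (Fin (kk p s)) =>
    ∀ r, 1 ≤ r → r < kk p s → Tpr (vv p s) τ r ∉ BB p s n0 r)

/-- ROOT.  The polynomial `∏_{i=1}^d (X + i) - e` over the field `ZMod p` is monic of degree `d ≥ 1`, so it has at most `d` roots; `m ↦ (m : ZMod p)` is
injective on `range p`. -/
def G_ROOT : Prop := ∀ (p d : ℕ) [Fact p.Prime] (e : ZMod p), 1 ≤ d →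
  ((range p).filter (fun m : ℕ => ∏ i ∈ Finset.Icc 1 d, ((m : ZMod p) + (i : ZMod p)) = e)).card ≤ d

/-- CB1 (uses MV).  `BB p s n0 r` is contained in the union over the at most `s` numbers `m` with `1 ≤ m < h`, `rr p s m = r`
(`x_{r-1} ≤ m < x_r`, or `m < x_0`; for `r ≥ kk` there is no such `m < h`) of the at most 2 units `g` with `Wm * g ∈ tgt` (`Wm ≠ 0` as `m! ≠ 0` and the `x_j ≠ 0`; division by 0 cannot occur). -/
def G_CB1 : Prop := ∀ (p s n0 r : ℕ) [Fact p.Prime], 3 ≤ p → 1 ≤ s →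
  (BB p s n0 r).card ≤ 2 * s

/-- CB2 (Section 3; uses MV, ROOT).  Let `Ev` be the set of pairs `(m,d)`, `1 ≤ m < h`, `d ∈ tgt p n0 m`.
(a) `|Ev.card - cc p n0| ≤ 2`: if `n0 < h` it is exactly `n0`; if `n0 ≥ h` it is `(h-1) + #{even m : 2h - n0 ≤ m ≤ h-1}` (`p - 1 = 2h`, `2h - n0 ≥ 1`).
(b) `∑_{1≤r<k} (BB r).card ≤ Ev.card`: `BB r` is the image of `{(m,d) ∈ Ev : rr m = r}` under `(m,d) ↦ d/W_m`.
(c) `≥ Ev.card - 2s - 2s²`: the events with `rr m = 0` have `m < x_0 ≤ s`, at most `2(s-1)` of them; an image of a finite set has at least `card - (number of unordered pairs of different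
elements with the same image)` elements; a colliding pair `(m,d),(m',d')` in the same class has `m ≠ m'` (`d ≠ d'` give different values as `W_m ≠ 0`), say `m' = m+e`, `1 ≤ e < s`, and
`(m+1)...(m+e) = W_{m'}/W_m = d'/d ∈ {1,-1}`.  For each `e < s` at most `2e` values of `m` (ROOT for `1` and `-1`), and for each such `(m,e)` at most 2 pairs `(d,d')`: in all `≤ ∑_{e<s} 4e ≤ 2s²`. -/
def G_CB2 : Prop := ∀ (p s n0 : ℕ) [Fact p.Prime], 3 ≤ p → 1 ≤ s → n0 ≤ p - 2 →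
  |(∑ r ∈ Finset.Ico 1 (kk p s), ((BB p s n0 r).card : ℝ)) - cc p n0| ≤ 2 * (s : ℝ) ^ 2 + 2 * s + 3

/-! ## D. Exceptional primes, natural list -/

open Classical in
/-- EXD (dyadic part of (ii)).  Let `y ≥ 100`, `M` a natural number with `M ≤ sqrt(2y)`.  Every prime `p ∈ (y,2y]` for which some `m ≤ M` has `m! = -1`, or `m` even and `m! = 1`, mod `p`
divides `∏_{2≤m≤M} ..`: for `m = 1`: `p ∣ 2`, `m = 2`: `p ∣ 3` or `p ∣ 1` (impossible as `p > y ≥ 100`); for `m ≥ 3` the integer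
`(m!+1)(m!-1)` is positive and `< m^{2m}`, so it has at most `2m log m/log y ≤ 2m` (`m ≤ sqrt(2y) ≤ y`) different prime factors `> y`.  Sum over `m ≤ M`: `≤ ∑ 2m ≤ 2M²`. -/
def G_EXD : Prop := ∀ (y : ℝ) (M : ℕ), 100 ≤ y → (M : ℝ) ≤ Real.sqrt (2 * y) →
  (((Finset.range (⌊2 * y⌋₊ + 1)).filter (fun p : ℕ => p.Prime ∧ y < p ∧
    ∃ m : ℕ, 1 ≤ m ∧ m ≤ M ∧ ((m.factorial : ZMod p) = -1 ∨
      (Even m ∧ (m.factorial : ZMod p) = 1)))).card : ℝ) ≤ 2 * (M : ℝ) ^ 2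

/-- EXC (uses EXD): part (ii).  If `p ∈ (y,2y]`, `y ≥ 100`, and `EarlyFree p s` fails for an `s` with `s log² p ≤ sqrt p`, there is a hit at some `m < s ≤ sqrt(2y)/log² y =: M`,
so the number of such `p` is `≤ 4y/(log y)^4`.  Dyadic summation: for `x ≥ 2` cover `(sqrt x, x]` by `(x/2^{i+1}, x/2^i]` with `y = x/2^{i+1} ≥ sqrt x/2`,
`log y ≥ (log x)/4` for `x ≥ 10^6`, sum `≤ 4^5 x/(log x)^4`, and the primes `≤ sqrt x` (or all primes up to `10^6`) are trivially few: `sqrt x ≤ C x/(log x)^4`. -/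
def G_EXC : Prop := MainExc

/-- NAT: part (iii).  `fsth p s (refl) i = i`, so `lst i = i` (for `i > h`, `i ≤ p-1`: `-(p-i) = i`); the product of the first `n ≤ p-2` entries is `n!`; and `n! = -1` in `ZMod p` iff
`p ∣ n!+1`. -/
def G_NAT : Prop := MainNat

end Pool.Agent.Helper51.PF
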